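import Pool.Agent.helper96.LK.SpecM

/-!
# lk:VD, the degree of the field `VV`
-/

open PowerSeries Filter

noncomputable section

namespace Pool.Agent.LK

open Pool.Agent.helper59.LC Pool.Agent.helper59.LD

theorem VD_xP (a : ℕ) : TD (xP ℂ a) 1 :=
  (td_one 1).add (((td_C _ 0).mul (((td_C _ 0).mul (td_X 0 le_rfl)).sub
    (td_X 1 (d := 0 + 1) (by norm_num)))).mono (by norm_num))

theorem VD_yP (a : ℕ) : TD (yP ℂ a) 1 :=
  (td_one 1).add (((td_C _ 0).mul (((td_C _ 0).mul (td_X 1 le_rfl)).sub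
    (td_X 0 (d := 0 + 1) (by norm_num)))).mono (by norm_num))

theorem VD_fh (e : ℂ) {z : MvPolynomial (Fin 2) ℂ} {d : ℕ} (h : TD z d) : TD (fh e z) (2 * d) :=
  ((td_one _).sub (h.pow 2)).add (((td_C e 0).mul (((td_one d).sub h).pow 2)).mono (by omega))

theorem VD_le (a : ℕ) (e e' : ℂ) : TD (VV a e e') (2 * a + 3) := by
  have hx := VD_xP a
  have hy := VD_yP a
  refine ((td_C _ 0).mul (TD.add (d := 2 * a + 3) ?_ ?_)).mono (by omega)
  · exact ((((td_C _ 0).mul hx).sub (hy.mono (by norm_num))).mul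
      (VD_fh e ((hx.pow a).mul hy))).mono (by ring_nf; omega)
  · exact (((td_C _ 0).mul (hx.sub hy)).mul (VD_fh e' (hx.mul (hy.pow a)))).mono (by ring_nf; omega)

theorem VD : VD_stmt := by
  intro a e e' ha he
  refine le_antisymm (VD_le a e e') (le_trans ?_ (dg_le _))
  have haC : ((a : ℂ) ^ 2 - 1) ≠ 0 := by
    have h1 : (1 : ℝ) < (a : ℝ) ^ 2 := by
      have : (2 : ℝ) ≤ a := by exact_mod_cast ha
      nlinarith
    have h2 : ((a : ℝ) ^ 2 - 1) ≠ 0 := by linarith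
    exact_mod_cast h2
  have haC' : ((a : ℂ) - 1) ≠ 0 := by
    intro h
    apply haC
    have : (a : ℂ) = 1 := by linear_combination h
    rw [this]
    ring
  have hq1 : qc ℂ (1 / ((a : ℚ) ^ 2 - 1)) = ((a : ℂ) ^ 2 - 1)⁻¹ := by
    simp [qc]
  have hq2 : qc ℂ (-1 / (2 * ((a : ℚ) ^ 2 - 1))) = -(2 * ((a : ℂ) ^ 2 - 1))⁻¹ := by
    simp [qc, div_eq_mul_inv]
  set γ : ℂ := ((a : ℂ) ^ 2 - 1)⁻¹ * ((a : ℂ) - 1) with hγ
  have hγ0 : γ ≠ 0 := mul_ne_zero (inv_ne_zero haC) haC'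
  set ξ : Polynomial ℂ := Polynomial.C γ * Polynomial.X + Polynomial.C 1 with hξ
  have hx : dg (xP ℂ a) = ξ := by
    rw [xP, map_add, map_one, map_mul, dg_C, map_sub, map_mul, dg_C, dg_X, dg_X, hq1, hξ, hγ,
      Polynomial.C_mul, Polynomial.C_sub, Polynomial.C_1]
    ring
  have hy : dg (yP ℂ a) = ξ := by
    rw [yP, map_add, map_one, map_mul, dg_C, map_sub, map_mul, dg_C, dg_X, dg_X, hq1, hξ, hγ,
      Polynomial.C_mul, Polynomial.C_sub, Polynomial.C_1]
    ring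
  have hfh : ∀ (c : ℂ) (z : MvPolynomial (Fin 2) ℂ), dg (fh c z) =
      1 - dg z ^ 2 + Polynomial.C c * (1 - dg z) ^ 2 := by
    intro c z
    rw [fh, map_add, map_sub, map_one, map_pow, map_mul, dg_C, map_pow, map_sub, map_one]
  set η : Polynomial ℂ := ξ ^ (a + 1) with hη
  set R : Polynomial ℂ := Polynomial.C (e - 1) * Polynomial.X ^ 2 +
    Polynomial.C (-(2 * e)) * Polynomial.X + Polynomial.C (1 + e) with hR
  have hV : dg (VV a e e') = Polynomial.C (-(2 * ((a : ℂ) ^ 2 - 1))⁻¹ * ((a : ℂ) ^ 2 - 1)) *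
      (ξ * R.comp η) := by
    have h1 : R.comp η = 1 - η ^ 2 + Polynomial.C e * (1 - η) ^ 2 := by
      rw [hR]
      simp only [Polynomial.add_comp, Polynomial.mul_comp, Polynomial.C_comp, Polynomial.pow_comp,
        Polynomial.X_comp]
      simp only [Polynomial.C_sub, Polynomial.C_neg, Polynomial.C_mul, Polynomial.C_add,
        Polynomial.C_1]
      have h2 : (Polynomial.C (2 : ℂ)) = 2 := rfl
      rw [h2]
      ring
    rw [h1, VV, map_mul, dg_C, map_add, map_mul, map_mul, map_mul, dg_C, map_sub, map_sub,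
      map_mul, dg_C, hfh, hfh, map_mul, map_mul, map_pow, map_pow, hx, hy, hq2, hη,
      Polynomial.C_mul, Polynomial.C_sub (a := (a : ℂ) ^ 2), Polynomial.C_1, Polynomial.C_pow]
    ring
  have hξd : ξ.natDegree = 1 := Polynomial.natDegree_linear hγ0
  have hξ0 : ξ ≠ 0 := by
    intro h
    rw [h, Polynomial.natDegree_zero] at hξd
    omega
  have hηd : η.natDegree = a + 1 := by
    rw [hη, Polynomial.natDegree_pow, hξd, mul_one]
  have hRd : R.natDegree = 2 := Polynomial.natDegree_quadratic (sub_ne_zero.2 he)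
  have hcd : (R.comp η).natDegree = 2 * (a + 1) := by
    rw [Polynomial.natDegree_comp, hRd, hηd]
  have hc0 : R.comp η ≠ 0 := by
    intro h
    rw [h, Polynomial.natDegree_zero] at hcd
    omega
  rw [hV, Polynomial.natDegree_C_mul, Polynomial.natDegree_mul hξ0 hc0, hξd, hcd]
  · omega
  · exact mul_ne_zero (neg_ne_zero.2 (inv_ne_zero (mul_ne_zero two_ne_zero haC))) haC

end Pool.Agent.LK
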